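import Mathlib

/-!
# The permutations 2413 and 3142 lie in the unavoidable core of Av(1423)
-/

namespace Pool.Agent.Results.MP_276eaf_co.TwoSimpleInCore

open Equiv

/-- A copy of the permutation `σ` in `τ`, all of whose entries have colour `b`. -/
def HasCopy {n k : ℕ} (τ : Perm (Fin n)) (σ : Perm (Fin k)) (c : Fin n → Bool) (b : Bool) : Prop :=
  ∃ f : Fin k ↪o Fin n, (∀ i, c (f i) = b) ∧ ∀ i j, σ i < σ j ↔ τ (f i) < τ (f j)

/-- `τ` contains `σ`. -/
def Contains {n k : ℕ} (τ : Perm (Fin n)) (σ : Perm (Fin k)) : Prop :=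
  ∃ f : Fin k ↪o Fin n, ∀ i j, σ i < σ j ↔ τ (f i) < τ (f j)

/-- `1423` in one-line notation (entries shifted to `0,…,3`). -/
def p1423 : Perm (Fin 4) := ⟨![0, 3, 1, 2], ![0, 2, 3, 1], by decide, by decide⟩

/-- `2413` in one-line notation (entries shifted to `0,…,3`). -/
def p2413 : Perm (Fin 4) := ⟨![1, 3, 0, 2], ![2, 0, 3, 1], by decide, by decide⟩

/-- `3142` in one-line notation (entries shifted to `0,…,3`). -/
def p3142 : Perm (Fin 4) := ⟨![2, 0, 3, 1], ![1, 3, 0, 2], by decide, by decide⟩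

/-- The class `Av(1423)`. -/
def C (n : ℕ) : Set (Perm (Fin n)) := {τ | ¬ Contains τ p1423}

/-- The unavoidable core of a class `D`: the permutations `π` of `D` such that for every `ρ` in `D`
there is `τ` in `D` such that every red-blue colouring of `τ` has a red copy of `π` or a blue copy
of `ρ`. -/
def Core (D : ∀ n : ℕ, Set (Perm (Fin n))) (k : ℕ) : Set (Perm (Fin k)) :=
  {π | π ∈ D k ∧ ∀ (r : ℕ) (ρ : Perm (Fin r)), ρ ∈ D r →
    ∃ (n : ℕ) (τ : Perm (Fin n)), τ ∈ D n ∧
      ∀ c : Fin n → Bool, HasCopy τ π c true ∨ HasCopy τ ρ c false}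

/-! ### Configurations of points -/

section Cfg

variable {P X Y : Type*} [LinearOrder X] [LinearOrder Y]

/-- no `1423` in a configuration -/
def Good (x : P → X) (y : P → Y) : Prop :=
  ∀ a b c d : P, x a < x b → x b < x c → x c < x d → y a < y c → y c < y d → y d < y b → False

omit [LinearOrder Y] in
theorem exists_enum [Fintype P] (x : P → X) (hx : Function.Injective x) :
    ∃ e : Fin (Fintype.card P) ≃ P, ∀ i j, i < j ↔ x (e i) < x (e j) := by
  let o : LinearOrder P := LinearOrder.lift' x hx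
  let ex : Fin (Fintype.card P) ≃o P := monoEquivOfFin P rfl
  exact ⟨ex.toEquiv, fun i j => (OrderIso.lt_iff_lt ex).symm⟩

/-- Standardisation of a finite configuration. -/
theorem exists_perm [Fintype P] (x : P → X) (y : P → Y) (hx : Function.Injective x)
    (hy : Function.Injective y) :
    ∃ (n : ℕ) (τ : Perm (Fin n)) (e : Fin n ≃ P), (∀ i j, i < j ↔ x (e i) < x (e j)) ∧
      ∀ i j, τ i < τ j ↔ y (e i) < y (e j) := by
  obtain ⟨ex, hex⟩ := exists_enum x hx
  obtain ⟨ey, hey⟩ := exists_enum y hy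
  refine ⟨Fintype.card P, ex.trans ey.symm, ex, hex, fun i j => ?_⟩
  rw [hey]
  simp

/-- A coloured copy in a configuration gives a coloured copy in its standardisation. -/
theorem hasCopy_of {n k : ℕ} {τ : Perm (Fin n)} {x : P → X} {y : P → Y} {e : Fin n ≃ P}
    (hx : ∀ i j, i < j ↔ x (e i) < x (e j)) (hy : ∀ i j, τ i < τ j ↔ y (e i) < y (e j))
    (σ : Perm (Fin k)) (c : Fin n → Bool) (b : Bool) (f : Fin k → P)
    (hc : ∀ i, c (e.symm (f i)) = b) (hfx : ∀ i j, i < j → x (f i) < x (f j))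
    (hfy : ∀ i j, σ i < σ j → y (f i) < y (f j)) : HasCopy τ σ c b := by
  have hmono : StrictMono (fun i => e.symm (f i)) := by
    intro i j hij
    rw [hx]
    simpa using hfx i j hij
  refine ⟨OrderEmbedding.ofStrictMono _ hmono, ?_, ?_⟩
  · intro i
    exact hc i
  · intro i j
    have key : ∀ i j, σ i < σ j → τ (e.symm (f i)) < τ (e.symm (f j)) := by
      intro i j hij
      rw [hy]
      simpa using hfy i j hij
    constructor
    · exact key i j
    · intro h
      by_contra hn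
      rcases lt_or_eq_of_le (not_lt.1 hn) with h1 | h1
      · exact lt_asymm h (key j i h1)
      · have : i = j := (σ.injective h1).symm
        subst this
        exact lt_irrefl _ h

theorem mem_C_of_good {n : ℕ} {τ : Perm (Fin n)} {x : P → X} {y : P → Y} {e : Fin n ≃ P}
    (hx : ∀ i j, i < j ↔ x (e i) < x (e j)) (hy : ∀ i j, τ i < τ j ↔ y (e i) < y (e j))
    (h : Good x y) : τ ∈ C n := by
  rintro ⟨f, hf⟩
  have h01 : f 0 < f 1 := f.strictMono (by decide)
  have h12 : f 1 < f 2 := f.strictMono (by decide)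
  have h23 : f 2 < f 3 := f.strictMono (by decide)
  have k1 : τ (f 0) < τ (f 2) := (hf 0 2).1 (by decide)
  have k2 : τ (f 2) < τ (f 3) := (hf 2 3).1 (by decide)
  have k3 : τ (f 3) < τ (f 1) := (hf 3 1).1 (by decide)
  exact h (e (f 0)) (e (f 1)) (e (f 2)) (e (f 3)) ((hx _ _).1 h01) ((hx _ _).1 h12)
    ((hx _ _).1 h23) ((hy _ _).1 k1) ((hy _ _).1 k2) ((hy _ _).1 k3)

end Cfg

theorem good_of_mem {n : ℕ} {τ : Perm (Fin n)} (h : τ ∈ C n) : Good (fun i : Fin n => i) τ := by
  intro a b c d hab hbc hcd hac hcd' hdb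
  apply h
  have hmono : StrictMono (![a, b, c, d] : Fin 4 → Fin n) := by
    rw [Fin.strictMono_iff_lt_succ]
    intro i
    fin_cases i
    · exact hab
    · exact hbc
    · exact hcd
  refine ⟨OrderEmbedding.ofStrictMono _ hmono, ?_⟩
  have had : τ a < τ d := hac.trans hcd'
  have hab' : τ a < τ b := had.trans hdb
  have hcb : τ c < τ b := hcd'.trans hdb
  intro i j
  fin_cases i <;> fin_cases j <;>
    simp [p1423, hac, hcd', hdb, had, hab', hcb, hac.le, hcd'.le, hdb.le, had.le, hab'.le, hcb.le]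

/-! ### Inflation of left-to-right minima -/

section Inflate

variable {P X Y Q U V : Type*} [LinearOrder X] [LinearOrder Y] [LinearOrder U] [LinearOrder V]

/-- Points of the inflation: the points satisfying `M` are replaced by blocks. -/
def IPt (M : P → Prop) (t0 : Q) : Type _ := {p : P × Q // M p.1 ∨ p.2 = t0}

/-- first coordinate of the inflation -/
def ix (x : P → X) (u : Q → U) (M : P → Prop) (t0 : Q) (p : IPt M t0) : X ×ₗ U :=
  toLex (x p.1.1, u p.1.2)

theorem good_inflate {x : P → X} {y : P → Y} {u : Q → U} {v : Q → V} {M : P → Prop} {t0 : Q}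
    (hxi : Function.Injective x) (hyi : Function.Injective y)
    (hM : ∀ p, M p → ∀ q, x q < x p → y q < y p → False)
    (hg : Good x y) (hq : Good u v) : Good (ix x u M t0) (ix y v M t0) := by
  rintro ⟨⟨a, ta⟩, ha⟩ ⟨⟨b, tb⟩, hb⟩ ⟨⟨c, tc⟩, hc⟩ ⟨⟨d, td⟩, hd⟩ h1 h2 h3 h4 h5 h6
  simp only [ix, Prod.Lex.toLex_lt_toLex] at h1 h2 h3 h4 h5 h6
  simp only at ha hb hc hd
  have l1 : x a ≤ x b := h1.elim le_of_lt fun h => h.1.le
  have l2 : x b ≤ x c := h2.elim le_of_lt fun h => h.1.le
  have l3 : x c ≤ x d := h3.elim le_of_lt fun h => h.1.le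
  have l4 : y a ≤ y c := h4.elim le_of_lt fun h => h.1.le
  have l5 : y c ≤ y d := h5.elim le_of_lt fun h => h.1.le
  have l6 : y d ≤ y b := h6.elim le_of_lt fun h => h.1.le
  by_cases hab : a = b
  · have e1 : y c = y a := le_antisymm (l5.trans (l6.trans (by rw [hab]))) l4
    have e2 : y d = y a := le_antisymm (l6.trans (by rw [hab])) (l4.trans l5)
    have hca : c = a := hyi e1
    have hda : d = a := hyi e2
    subst hab
    subst hca
    subst hda
    simp only [lt_irrefl, false_or, true_and] at h1 h2 h3 h4 h5 h6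
    exact hq _ _ _ _ h1 h2 h3 h4 h5 h6
  have hab' : x a < x b := lt_of_le_of_ne l1 fun h => hab (hxi h)
  by_cases hbc : b = c
  · have e1 : y d = y b := le_antisymm l6 (by rw [hbc]; exact l5)
    have hdb : d = b := hyi e1
    subst hbc
    subst hdb
    simp only [lt_irrefl, false_or, true_and] at h2 h3 h5 h6
    have hMb : M d := by
      rcases hb with h | h
      · exact h
      · rcases hc with h' | h'
        · exact h'
        · rw [h, h'] at h2
          exact absurd h2 (lt_irrefl _)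
    refine hM d hMb a hab' ?_
    exact lt_of_le_of_ne l4 fun h => hab (hyi h)
  have hbc' : x b < x c := lt_of_le_of_ne l2 fun h => hbc (hxi h)
  by_cases hcd : c = d
  · subst hcd
    simp only [lt_irrefl, false_or, true_and] at h3 h5
    have hMc : M c := by
      rcases hc with h | h
      · exact h
      · rcases hd with h' | h'
        · exact h'
        · rw [h, h'] at h3
          exact absurd h3 (lt_irrefl _)
    refine hM c hMc a (hab'.trans hbc') ?_
    refine lt_of_le_of_ne l4 fun h => ?_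
    have := hyi h
    subst this
    exact absurd hbc' (not_lt.2 hab'.le)
  have hcd' : x c < x d := lt_of_le_of_ne l3 fun h => hcd (hxi h)
  have k5 : y c < y d := lt_of_le_of_ne l5 fun h => hcd (hyi h)
  have k4 : y a < y c := by
    refine lt_of_le_of_ne l4 fun h => ?_
    have := hyi h
    subst this
    exact absurd hbc' (not_lt.2 hab'.le)
  have k6 : y d < y b := by
    refine lt_of_le_of_ne l6 fun h => ?_
    have := hyi h
    subst this
    exact absurd hbc' (not_lt.2 hcd'.le)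
  exact hg a b c d hab' hbc' hcd' k4 k5 k6

omit [LinearOrder X] [LinearOrder U] in
theorem ix_injective {x : P → X} {u : Q → U} {M : P → Prop} {t0 : Q}
    (hx : Function.Injective x) (hu : Function.Injective u) :
    Function.Injective (ix x u M t0) := by
  rintro ⟨⟨a, ta⟩, ha⟩ ⟨⟨b, tb⟩, hb⟩ h
  simp only [ix, EmbeddingLike.apply_eq_iff_eq, Prod.mk.injEq] at h
  have h1 := hx h.1
  have h2 := hu h.2
  subst h1
  subst h2
  rfl

end Inflate

/-! ### The skew sum of two permutations, as a configuration -/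

section Skew

variable {k r : ℕ}

/-- first coordinate of the skew sum -/
def sx : Fin k ⊕ Fin r → ℤ ×ₗ ℤ
  | Sum.inl i => toLex (0, (i : ℤ))
  | Sum.inr i => toLex (1, (i : ℤ))

/-- second coordinate of the skew sum -/
def sy (π : Perm (Fin k)) (ρ : Perm (Fin r)) : Fin k ⊕ Fin r → ℤ ×ₗ ℤ
  | Sum.inl i => toLex (1, (π i : ℤ))
  | Sum.inr i => toLex (0, (ρ i : ℤ))

theorem sx_injective : Function.Injective (sx : Fin k ⊕ Fin r → ℤ ×ₗ ℤ) := by
  rintro (i | i) (j | j) h <;>
    simp only [sx, EmbeddingLike.apply_eq_iff_eq, Prod.mk.injEq] at h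
  · rw [Sum.inl.injEq]
    exact Fin.ext (by exact_mod_cast h.2)
  · omega
  · omega
  · rw [Sum.inr.injEq]
    exact Fin.ext (by exact_mod_cast h.2)

theorem sy_injective (π : Perm (Fin k)) (ρ : Perm (Fin r)) : Function.Injective (sy π ρ) := by
  rintro (i | i) (j | j) h <;>
    simp only [sy, EmbeddingLike.apply_eq_iff_eq, Prod.mk.injEq] at h
  · rw [Sum.inl.injEq]
    exact π.injective (Fin.ext (by exact_mod_cast h.2))
  · omega
  · omega
  · rw [Sum.inr.injEq]
    exact ρ.injective (Fin.ext (by exact_mod_cast h.2))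

theorem good_skew {π : Perm (Fin k)} {ρ : Perm (Fin r)} (hπ : π ∈ C k) (hρ : ρ ∈ C r) :
    Good (sx : Fin k ⊕ Fin r → ℤ ×ₗ ℤ) (sy π ρ) := by
  have gπ := good_of_mem hπ
  have gρ := good_of_mem hρ
  rintro (a | a) (b | b) (c | c) (d | d) h1 h2 h3 h4 h5 h6 <;>
    simp only [sx, sy, Prod.Lex.toLex_lt_toLex, lt_irrefl, false_or, true_and, zero_lt_one,
      Nat.cast_lt, Fin.val_fin_lt] at h1 h2 h3 h4 h5 h6 <;>
    first
      | omega
      | exact gπ a b c d h1 h2 h3 h4 h5 h6
      | exact gρ a b c d h1 h2 h3 h4 h5 h6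

end Skew

/-! ### The main construction -/

section Main

variable {r : ℕ} (ρ : Perm (Fin r))

/-- `i` is a left-to-right minimum -/
def IsMin (i : Fin r) : Prop := ∀ j, j < i → ρ i < ρ j

/-- Points of the construction: left-to-right minima `m i`; for every other entry `i` two copies
`p i false`, `p i true`, and two new left-to-right minima `mu i`, `al i`. -/
inductive Pt (r : ℕ) : Type
  | m (i : Fin r)
  | p (i : Fin r) (s : Bool)
  | mu (i : Fin r)
  | al (i : Fin r)
  deriving Fintype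

/-- which points are used -/
def Ok : Pt r → Prop
  | Pt.m i => IsMin ρ i
  | Pt.p i _ => ¬ IsMin ρ i
  | Pt.mu i => ¬ IsMin ρ i
  | Pt.al i => ¬ IsMin ρ i

/-- `b i` is the position of the smallest entry to the left of `i` -/
structure Data where
  b : Fin r → Fin r
  hb : ∀ i, ¬ IsMin ρ i → b i < i ∧ ρ (b i) < ρ i ∧ ∀ j, j < i → ρ (b i) ≤ ρ j
  a : Fin r → Fin r
  ha : ∀ i, ¬ IsMin ρ i → a i < i ∧ ρ (a i) < ρ i ∧ ∀ j, ρ j < ρ i → a i ≤ j

theorem exists_data : Nonempty (Data ρ) := by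
  classical
  have h1 : ∀ i, ∃ j, ¬ IsMin ρ i → j < i ∧ ρ j < ρ i ∧ ∀ l, l < i → ρ j ≤ ρ l := by
    intro i
    by_cases hi : IsMin ρ i
    · exact ⟨i, fun h => absurd hi h⟩
    · unfold IsMin at hi
      push Not at hi
      obtain ⟨j0, hj0, hj0'⟩ := hi
      obtain ⟨j, hj, hjm⟩ := Finset.exists_min_image (Finset.univ.filter (fun j => j < i))
        (fun j => ρ j) ⟨j0, by simpa using hj0⟩
      simp only [Finset.mem_filter, Finset.mem_univ, true_and] at hj hjm
      refine ⟨j, fun _ => ⟨hj, ?_, fun l hl => hjm l hl⟩⟩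
      refine lt_of_le_of_ne ((hjm j0 hj0).trans hj0') ?_
      intro h
      exact absurd (ρ.injective h) hj.ne
  have h2 : ∀ i, ∃ j, ¬ IsMin ρ i → j < i ∧ ρ j < ρ i ∧ ∀ l, ρ l < ρ i → j ≤ l := by
    intro i
    by_cases hi : IsMin ρ i
    · exact ⟨i, fun h => absurd hi h⟩
    · unfold IsMin at hi
      push Not at hi
      obtain ⟨j0, hj0, hj0'⟩ := hi
      have hj1 : ρ j0 < ρ i := lt_of_le_of_ne hj0' fun h => hj0.ne (ρ.injective h)
      obtain ⟨j, hj, hjm⟩ := Finset.exists_min_image (Finset.univ.filter (fun j => ρ j < ρ i))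
        (fun j => j) ⟨j0, by simpa using hj1⟩
      simp only [Finset.mem_filter, Finset.mem_univ, true_and] at hj hjm
      exact ⟨j, fun _ => ⟨(hjm j0 hj1).trans_lt hj0, hj, fun l hl => hjm l hl⟩⟩
  choose f hf using h1
  choose g hg using h2
  exact ⟨⟨f, hf, g, hg⟩⟩

variable {ρ} (D : Data ρ)

/-- first coordinate of the construction -/
def X : Pt r → ℤ ×ₗ ℤ
  | Pt.m i => toLex ((i : ℤ), 0)
  | Pt.p i false => toLex ((i : ℤ), 0)
  | Pt.mu i => toLex ((i : ℤ), 1)
  | Pt.p i true => toLex ((i : ℤ), 2)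
  | Pt.al i => toLex ((D.a i : ℤ), -1 - (ρ i : ℤ))

/-- second coordinate of the construction -/
def Y : Pt r → ℤ ×ₗ ℤ
  | Pt.m i => toLex ((ρ i : ℤ), 0)
  | Pt.p i false => toLex ((ρ i : ℤ), 2)
  | Pt.al i => toLex ((ρ i : ℤ), 1)
  | Pt.p i true => toLex ((ρ i : ℤ), 0)
  | Pt.mu i => toLex ((ρ (D.b i) : ℤ), -1 - (i : ℤ))


/-- the left-to-right minima among the points -/
def MinPt : Pt r → Prop
  | Pt.m _ => True
  | Pt.p _ _ => False
  | Pt.mu _ => True
  | Pt.al _ => True

/-- the points of the construction -/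
def PP (ρ : Perm (Fin r)) : Type := {p : Pt r // Ok ρ p}

theorem min_lt {i j : Fin r} (hi : IsMin ρ i) (hji : j < i) : ρ i < ρ j := hi j hji

/-- nothing lies to the lower left of a left-to-right minimum -/
theorem minPt_spec (p q : Pt r) (hp : Ok ρ p) (hq : Ok ρ q) (hM : MinPt p)
    (hx : X D q < X D p) (hy : Y D q < Y D p) : False := by
  have inj : ∀ i j : Fin r, (ρ i : ℕ) = ρ j → (i : ℕ) = j := fun i j h =>
    congrArg Fin.val (ρ.injective (Fin.ext h))
  have hb1 : ∀ i, ¬ IsMin ρ i → (D.b i : ℕ) < i := fun i hi => (D.hb i hi).1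
  have hb2 : ∀ i, ¬ IsMin ρ i → (ρ (D.b i) : ℕ) < ρ i := fun i hi => (D.hb i hi).2.1
  have hb3 : ∀ i, ¬ IsMin ρ i → ∀ j : Fin r, (j : ℕ) < i → (ρ (D.b i) : ℕ) ≤ ρ j :=
    fun i hi j hj => (D.hb i hi).2.2 j hj
  have ha1 : ∀ i, ¬ IsMin ρ i → (D.a i : ℕ) < i := fun i hi => (D.ha i hi).1
  have ha2 : ∀ i, ¬ IsMin ρ i → (ρ (D.a i) : ℕ) < ρ i := fun i hi => (D.ha i hi).2.1
  have ha3 : ∀ i, ¬ IsMin ρ i → ∀ j : Fin r, (ρ j : ℕ) < ρ i → (D.a i : ℕ) ≤ j :=
    fun i hi j hj => (D.ha i hi).2.2 j hj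
  have hm : ∀ i, IsMin ρ i → ∀ j : Fin r, (j : ℕ) < i → (ρ i : ℕ) < ρ j := fun i hi j hj => hi j hj
  rcases p with i | ⟨i, s⟩ | i | i
  · -- p = m i
    have hi : IsMin ρ i := hp
    rcases q with j | ⟨j, _ | _⟩ | j | j <;>
      simp only [X, Y, Prod.Lex.toLex_lt_toLex] at hx hy
    · have := hm i hi j
      omega
    · have := hm i hi j
      omega
    · have := hm i hi j
      omega
    · have h1 := hb1 j hq
      have := hm i hi (D.b j)
      omega
    · have h1 := ha2 j hq
      have := hm i hi (D.a j)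
      have h2 := inj (D.a j) i
      have h3 : (D.a j : ℕ) = i → (ρ (D.a j) : ℕ) = ρ i := fun h => by
        rw [Fin.ext h]
      omega
  · exact hM.elim
  · -- p = mu i
    have hi : ¬ IsMin ρ i := hp
    have b1 := hb1 i hi
    have b2 := hb2 i hi
    have hji : ∀ j : Fin r, (j : ℕ) = i → (ρ j : ℕ) = ρ i := fun j h => by
      rw [Fin.ext h]
    rcases q with j | ⟨j, _ | _⟩ | j | j <;>
      simp only [X, Y, Prod.Lex.toLex_lt_toLex] at hx hy
    · have := hb3 i hi j
      have := hji j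
      omega
    · have := hb3 i hi j
      have := hji j
      omega
    · have := hb3 i hi j
      have := hji j
      omega
    · have h1 := hb1 j hq
      have := hb3 i hi (D.b j)
      omega
    · have h1 := ha2 j hq
      have := hb3 i hi (D.a j)
      have h2 := hji (D.a j)
      omega
  · -- p = al i
    have hi : ¬ IsMin ρ i := hp
    have a1 := ha1 i hi
    have a2 := ha2 i hi
    have hji : ∀ j : Fin r, (ρ j : ℕ) = ρ i → (j : ℕ) = i := fun j h => inj j i h
    rcases q with j | ⟨j, _ | _⟩ | j | j <;>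
      simp only [X, Y, Prod.Lex.toLex_lt_toLex] at hx hy
    · have := ha3 i hi j
      have := hji j
      omega
    · have := ha3 i hi j
      have := hji j
      omega
    · have := ha3 i hi j
      have := hji j
      omega
    · have h1 := hb1 j hq
      have := ha3 i hi (D.b j)
      have := hji (D.b j)
      omega
    · have h1 := ha2 j hq
      have := ha3 i hi (D.a j)
      omega

/-- the entry of `ρ` underlying a point of type `p` -/
theorem p_of_not_min {p : Pt r} (h : ¬ MinPt p) : ∃ i s, p = Pt.p i s := by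
  rcases p with i | ⟨i, s⟩ | i | i
  · exact absurd trivial h
  · exact ⟨i, s, rfl⟩
  · exact absurd trivial h
  · exact absurd trivial h

theorem good_main (hρ : ρ ∈ C r) :
    Good (fun p : PP ρ => X D p.1) (fun p : PP ρ => Y D p.1) := by
  have gρ := good_of_mem hρ
  rintro ⟨a, ha⟩ ⟨b, hb⟩ ⟨c, hc⟩ ⟨d, hd⟩ h1 h2 h3 h4 h5 h6
  simp only at h1 h2 h3 h4 h5 h6
  have mb : ¬ MinPt b := fun h => minPt_spec D b a hb ha h h1 (h4.trans (h5.trans h6))
  have mc : ¬ MinPt c := fun h => minPt_spec D c a hc ha h (h1.trans h2) h4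
  have md : ¬ MinPt d := fun h => minPt_spec D d a hd ha h (h1.trans (h2.trans h3)) (h4.trans h5)
  obtain ⟨ib, sb, rfl⟩ := p_of_not_min mb
  obtain ⟨ic, sc, rfl⟩ := p_of_not_min mc
  obtain ⟨id, sd, rfl⟩ := p_of_not_min md
  have inj : ∀ i j : Fin r, (ρ i : ℕ) = ρ j → (i : ℕ) = j := fun i j h =>
    congrArg Fin.val (ρ.injective (Fin.ext h))
  have cgr : ∀ i j : Fin r, (i : ℕ) = j → (ρ i : ℕ) = ρ j := fun i j h => by
    rw [Fin.ext h]
  -- the three entries form a `312` of `ρ`
  have key : (ib : ℕ) < ic ∧ (ic : ℕ) < id ∧ (ρ ic : ℕ) < ρ id ∧ (ρ id : ℕ) < ρ ib := by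
    have e1 := inj ib ic
    have e2 := inj ic id
    have e3 := inj ib id
    have f1 := cgr ib ic
    have f2 := cgr ic id
    have f3 := cgr ib id
    rcases sb with _ | _ <;> rcases sc with _ | _ <;> rcases sd with _ | _ <;>
      simp only [X, Y, Prod.Lex.toLex_lt_toLex] at h2 h3 h5 h6 <;>
      omega
  obtain ⟨k1, k2, k3, k4⟩ := key
  -- an entry of `ρ` to the lower left
  have hlow : ∃ ia : Fin r, (ia : ℕ) < ib ∧ (ρ ia : ℕ) < ρ ic := by
    rcases a with i | ⟨i, _ | _⟩ | i | i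
    · refine ⟨i, ?_⟩
      have e1 := inj i ic
      have f1 := cgr i ib
      rcases sb with _ | _ <;> rcases sc with _ | _ <;>
        simp only [X, Y, Prod.Lex.toLex_lt_toLex] at h1 h4 <;> omega
    · refine ⟨i, ?_⟩
      have e1 := inj i ic
      have f1 := cgr i ib
      rcases sb with _ | _ <;> rcases sc with _ | _ <;>
        simp only [X, Y, Prod.Lex.toLex_lt_toLex] at h1 h4 <;> omega
    · refine ⟨i, ?_⟩
      have e1 := inj i ic
      have f1 := cgr i ib
      rcases sb with _ | _ <;> rcases sc with _ | _ <;>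
        simp only [X, Y, Prod.Lex.toLex_lt_toLex] at h1 h4 <;> omega
    · refine ⟨D.b i, ?_⟩
      have e1 := inj (D.b i) ic
      have b1 : (D.b i : ℕ) < i := (D.hb i ha).1
      rcases sb with _ | _ <;> rcases sc with _ | _ <;>
        simp only [X, Y, Prod.Lex.toLex_lt_toLex] at h1 h4 <;> omega
    · refine ⟨D.a i, ?_⟩
      have a2 : (ρ (D.a i) : ℕ) < ρ i := (D.ha i ha).2.1
      have f1 := cgr (D.a i) ib
      rcases sb with _ | _ <;> rcases sc with _ | _ <;>
        simp only [X, Y, Prod.Lex.toLex_lt_toLex] at h1 h4 <;> omega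
  obtain ⟨ia, l1, l2⟩ := hlow
  exact gρ ia ib ic id l1 k1 k2 l2 k3 k4

theorem X_injective : Function.Injective (fun p : PP ρ => X D p.1) := by
  rintro ⟨p, hp⟩ ⟨q, hq⟩ h
  have inj : ∀ i j : Fin r, (ρ i : ℤ) = ρ j → i = j := fun i j h =>
    ρ.injective (Fin.ext (by exact_mod_cast h))
  have fx : ∀ i j : Fin r, (i : ℤ) = j → i = j := fun i j h => Fin.ext (by exact_mod_cast h)
  rcases p with i | ⟨i, _ | _⟩ | i | i <;> rcases q with j | ⟨j, _ | _⟩ | j | j <;>
    simp only [X, EmbeddingLike.apply_eq_iff_eq, Prod.mk.injEq] at h <;>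
    first
      | (exfalso; omega)
      | (have e := fx i j h.1; subst e; rfl)
      | (have e := fx i j h.1; subst e; exact absurd hp hq)
      | (have e := fx i j h.1; subst e; exact absurd hq hp)
      | (have e := inj i j (by omega); subst e; rfl)

theorem Y_injective : Function.Injective (fun p : PP ρ => Y D p.1) := by
  rintro ⟨p, hp⟩ ⟨q, hq⟩ h
  have inj : ∀ i j : Fin r, (ρ i : ℤ) = ρ j → i = j := fun i j h =>
    ρ.injective (Fin.ext (by exact_mod_cast h))
  have fx : ∀ i j : Fin r, (i : ℤ) = j → i = j := fun i j h => Fin.ext (by exact_mod_cast h)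
  rcases p with i | ⟨i, _ | _⟩ | i | i <;> rcases q with j | ⟨j, _ | _⟩ | j | j <;>
    simp only [Y, EmbeddingLike.apply_eq_iff_eq, Prod.mk.injEq] at h <;>
    first
      | (exfalso; omega)
      | (have e := inj i j h.1; subst e; rfl)
      | (have e := inj i j h.1; subst e; exact absurd hp hq)
      | (have e := inj i j h.1; subst e; exact absurd hq hp)
      | (have e := fx i j (by omega); subst e; rfl)

/-- The final configuration: the left-to-right minima are inflated by `π ⊖ ρ`. -/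
def Fin4 (ρ : Perm (Fin r)) (k : ℕ) : Type :=
  IPt (P := PP ρ) (Q := Fin (k + 1) ⊕ Fin r) (fun p => MinPt p.1) (Sum.inl 0)

noncomputable instance (k : ℕ) : Fintype (Fin4 ρ k) := by
  classical
  unfold Fin4 IPt PP
  infer_instance

/-- first coordinate of the final configuration -/
def FX {k : ℕ} (p : Fin4 ρ k) : (ℤ ×ₗ ℤ) ×ₗ (ℤ ×ₗ ℤ) :=
  ix (fun p : PP ρ => X D p.1) sx _ _ p

/-- second coordinate of the final configuration -/
def FY {k : ℕ} (π : Perm (Fin (k + 1))) (p : Fin4 ρ k) : (ℤ ×ₗ ℤ) ×ₗ (ℤ ×ₗ ℤ) :=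
  ix (fun p : PP ρ => Y D p.1) (sy π ρ) _ _ p

/-- a point in the block of a left-to-right minimum -/
def blk {k : ℕ} (p : PP ρ) (h : MinPt p.1) (t : Fin (k + 1) ⊕ Fin r) : Fin4 ρ k :=
  ⟨(p, t), Or.inl h⟩

/-- the chosen point in a block -/
def bt {k : ℕ} (t : ∀ p : PP ρ, MinPt p.1 → Fin (k + 1) ⊕ Fin r) (p : PP ρ) (h : MinPt p.1) :
    Fin4 ρ k := blk p h (t p h)

/-- a single point -/
def sgl {k : ℕ} (p : PP ρ) : Fin4 ρ k := ⟨(p, Sum.inl 0), Or.inr rfl⟩

theorem core_step {k : ℕ} {π : Perm (Fin (k + 1))} (hπ : π ∈ C (k + 1))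
    (hgad : ∀ (r : ℕ) (ρ : Perm (Fin r)) (D : Data ρ) (i : Fin r) (hi : ¬ IsMin ρ i)
      (t : ∀ p : PP ρ, MinPt p.1 → Fin (k + 1) ⊕ Fin r),
      ∃ f : Fin (k + 1) → Fin4 ρ k, (∀ l, (∃ p, ∃ h : MinPt p.1, f l = blk p h (t p h)) ∨
          f l = sgl ⟨Pt.p i false, hi⟩ ∨ f l = sgl ⟨Pt.p i true, hi⟩) ∧
        (∀ a b, a < b → FX D (f a) < FX D (f b)) ∧
        ∀ a b, π a < π b → FY D π (f a) < FY D π (f b)) :
    π ∈ Core C (k + 1) := by
  classical
  refine ⟨hπ, fun r ρ hρ => ?_⟩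
  obtain ⟨D⟩ := exists_data ρ
  have hgood : Good (FX D : Fin4 ρ k → _) (FY D π) := by
    refine good_inflate (X_injective D) (Y_injective D) ?_ (good_main D hρ) (good_skew hπ hρ)
    intro p hp q h1 h2
    exact minPt_spec D p.1 q.1 p.2 q.2 hp h1 h2
  have hxi : Function.Injective (FX D : Fin4 ρ k → _) := ix_injective (X_injective D) sx_injective
  have hyi : Function.Injective (FY D π : Fin4 ρ k → _) :=
    ix_injective (Y_injective D) (sy_injective π ρ)
  obtain ⟨n, τ, e, ex, ey⟩ := exists_perm (FX D : Fin4 ρ k → _) (FY D π) hxi hyi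
  refine ⟨n, τ, mem_C_of_good ex ey hgood, fun c => ?_⟩
  by_cases hred : ∃ (p : PP ρ) (h : MinPt p.1), ∀ t, c (e.symm (blk p h t)) = true
  · -- a red block
    obtain ⟨p, h, hall⟩ := hred
    left
    refine hasCopy_of ex ey π c true (fun i => blk p h (Sum.inl i)) (fun i => hall _) ?_ ?_
    · intro i j hij
      simp only [FX, ix, blk, Prod.Lex.toLex_lt_toLex, lt_irrefl, false_or, true_and, sx]
      exact_mod_cast hij
    · intro i j hij
      simp only [FY, ix, blk, Prod.Lex.toLex_lt_toLex, lt_irrefl, false_or, true_and, sy]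
      exact_mod_cast hij
  by_cases hblue : ∃ (p : PP ρ) (h : MinPt p.1), ∀ t, c (e.symm (blk (k := k) p h t)) = false
  · -- a blue block
    obtain ⟨p, h, hall⟩ := hblue
    right
    refine hasCopy_of ex ey ρ c false (fun i => blk p h (Sum.inr i)) (fun i => hall _) ?_ ?_
    · intro i j hij
      simp only [FX, ix, blk, Prod.Lex.toLex_lt_toLex, lt_irrefl, false_or, true_and, sx]
      exact_mod_cast hij
    · intro i j hij
      simp only [FY, ix, blk, Prod.Lex.toLex_lt_toLex, lt_irrefl, false_or, true_and, sy]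
      exact_mod_cast hij
  push Not at hred hblue
  choose tb htb using hred
  choose tr htr using hblue
  have htb' : ∀ p h, c (e.symm (blk (k := k) p h (tb p h))) = false := fun p h => by
    simpa using htb p h
  have htr' : ∀ p h, c (e.symm (blk (k := k) p h (tr p h))) = true := fun p h => by
    simpa using htr p h
  by_cases hboth : ∃ (i : Fin r) (hi : ¬ IsMin ρ i),
      c (e.symm (sgl (k := k) ⟨Pt.p i false, hi⟩)) = true ∧
      c (e.symm (sgl (k := k) ⟨Pt.p i true, hi⟩)) = true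
  · obtain ⟨i, hi, h1, h2⟩ := hboth
    left
    obtain ⟨f, hf, hfx, hfy⟩ := hgad r ρ D i hi tr
    refine hasCopy_of ex ey π c true f (fun l => ?_) hfx hfy
    rcases hf l with ⟨p, h, hfl⟩ | hfl | hfl
    · rw [hfl]
      exact htr' p h
    · rw [hfl]
      exact h1
    · rw [hfl]
      exact h2
  · -- a blue copy of `ρ`
    right
    have hs : ∀ i : Fin r, ∃ q : Fin4 ρ k, c (e.symm q) = false ∧
        ((∃ (h : IsMin ρ i) (t : _), q = blk ⟨Pt.m i, h⟩ trivial t) ∨
          ∃ (h : ¬ IsMin ρ i) (s : Bool), q = sgl ⟨Pt.p i s, h⟩) := by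
      intro i
      by_cases hi : IsMin ρ i
      · exact ⟨blk ⟨Pt.m i, hi⟩ trivial _, htb' _ _, Or.inl ⟨hi, _, rfl⟩⟩
      · by_cases h1 : c (e.symm (sgl (k := k) ⟨Pt.p i false, hi⟩)) = false
        · exact ⟨_, h1, Or.inr ⟨hi, false, rfl⟩⟩
        · by_cases h2 : c (e.symm (sgl (k := k) ⟨Pt.p i true, hi⟩)) = false
          · exact ⟨_, h2, Or.inr ⟨hi, true, rfl⟩⟩
          · exact absurd ⟨i, hi, by simpa using h1, by simpa using h2⟩ hboth
    choose f hf1 hf2 using hs
    have fxl : ∀ i, ∃ a b, FX D (f i) = toLex (toLex ((i : ℤ), a), b) := by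
      intro i
      rcases hf2 i with ⟨h, t, hq⟩ | ⟨h, s, hq⟩
      · rw [hq]
        exact ⟨_, _, rfl⟩
      · rw [hq]
        rcases s with _ | _
        · exact ⟨_, _, rfl⟩
        · exact ⟨_, _, rfl⟩
    have fyl : ∀ i, ∃ a b, FY D π (f i) = toLex (toLex ((ρ i : ℤ), a), b) := by
      intro i
      rcases hf2 i with ⟨h, t, hq⟩ | ⟨h, s, hq⟩
      · rw [hq]
        exact ⟨_, _, rfl⟩
      · rw [hq]
        rcases s with _ | _
        · exact ⟨_, _, rfl⟩
        · exact ⟨_, _, rfl⟩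
    refine hasCopy_of ex ey ρ c false f hf1 ?_ ?_
    · intro i j hij
      obtain ⟨a, b, h1⟩ := fxl i
      obtain ⟨a', b', h2⟩ := fxl j
      rw [h1, h2, Prod.Lex.toLex_lt_toLex]
      left
      rw [Prod.Lex.toLex_lt_toLex]
      left
      change (i : ℤ) < (j : ℤ)
      exact_mod_cast hij
    · intro i j hij
      obtain ⟨a, b, h1⟩ := fyl i
      obtain ⟨a', b', h2⟩ := fyl j
      rw [h1, h2, Prod.Lex.toLex_lt_toLex]
      left
      rw [Prod.Lex.toLex_lt_toLex]
      left
      change (ρ i : ℤ) < (ρ j : ℤ)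
      exact_mod_cast hij

theorem isMin_b {i : Fin r} (hi : ¬ IsMin ρ i) : IsMin ρ (D.b i) := by
  obtain ⟨h1, _, h3⟩ := D.hb i hi
  intro j hj
  refine lt_of_le_of_ne (h3 j (hj.trans h1)) fun h => ?_
  exact absurd (ρ.injective h) hj.ne'

theorem isMin_a {i : Fin r} (hi : ¬ IsMin ρ i) : IsMin ρ (D.a i) := by
  obtain ⟨h1, h2, h3⟩ := D.ha i hi
  intro j hj
  by_contra hle
  exact absurd (h3 j ((not_lt.1 hle).trans_lt h2)) (not_le.2 hj)

end Main

theorem mem_C_of_no (π : Perm (Fin 4)) (h : π ≠ p1423) : π ∈ C 4 := by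
  rintro ⟨f, hf⟩
  apply h
  have hid : ∀ i, f i = i := by
    have h01 : f 0 < f 1 := f.strictMono (by decide)
    have h12 : f 1 < f 2 := f.strictMono (by decide)
    have h23 : f 2 < f 3 := f.strictMono (by decide)
    have h3 := (f 3).2
    rw [Fin.lt_def] at h01 h12 h23
    intro i
    fin_cases i <;> apply Fin.ext <;> simp <;> omega
  simp only [hid] at hf
  revert hf
  revert π
  decide

theorem core_2413 : p2413 ∈ Core C 4 := by
  refine core_step (mem_C_of_no _ (by decide)) fun r ρ D i hi t => ?_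
  have hb := isMin_b D hi
  refine ⟨![bt t ⟨Pt.m (D.b i), hb⟩ trivial, sgl ⟨Pt.p i false, hi⟩,
    bt t ⟨Pt.mu i, hi⟩ trivial, sgl ⟨Pt.p i true, hi⟩], ?_, ?_, ?_⟩
  · intro l
    fin_cases l
    · exact Or.inl ⟨_, _, rfl⟩
    · exact Or.inr (Or.inl rfl)
    · exact Or.inl ⟨_, _, rfl⟩
    · exact Or.inr (Or.inr rfl)
  · have h1 : (D.b i : ℤ) < i := by exact_mod_cast (D.hb i hi).1
    intro a b hab
    fin_cases a <;> fin_cases b <;> simp at hab <;>
      simp [FX, ix, bt, blk, sgl, X, Prod.Lex.toLex_lt_toLex, h1]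
  · have h2 : (ρ (D.b i) : ℤ) < ρ i := by exact_mod_cast (D.hb i hi).2.1
    have h3 : (-1 - (i : ℤ)) < 0 := by omega
    intro a b hab
    fin_cases a <;> fin_cases b <;> simp [p2413] at hab <;>
      simp [FY, ix, bt, blk, sgl, Y, Prod.Lex.toLex_lt_toLex, h2, h3]

theorem core_3142 : p3142 ∈ Core C 4 := by
  refine core_step (mem_C_of_no _ (by decide)) fun r ρ D i hi t => ?_
  have ha := isMin_a D hi
  refine ⟨![bt t ⟨Pt.al i, hi⟩ trivial, bt t ⟨Pt.m (D.a i), ha⟩ trivial,
    sgl ⟨Pt.p i false, hi⟩, sgl ⟨Pt.p i true, hi⟩], ?_, ?_, ?_⟩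
  · intro l
    fin_cases l
    · exact Or.inl ⟨_, _, rfl⟩
    · exact Or.inl ⟨_, _, rfl⟩
    · exact Or.inr (Or.inl rfl)
    · exact Or.inr (Or.inr rfl)
  · have h1 : (D.a i : ℤ) < i := by exact_mod_cast (D.ha i hi).1
    have h3 : (-1 - (ρ i : ℤ)) < 0 := by omega
    intro a b hab
    fin_cases a <;> fin_cases b <;> simp at hab <;>
      simp [FX, ix, bt, blk, sgl, X, Prod.Lex.toLex_lt_toLex, h1, h3]
  · have h2 : (ρ (D.a i) : ℤ) < ρ i := by exact_mod_cast (D.ha i hi).2.1
    intro a b hab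
    fin_cases a <;> fin_cases b <;> simp [p3142] at hab <;>
      simp [FY, ix, bt, blk, sgl, Y, Prod.Lex.toLex_lt_toLex, h2]

/-- Both simple permutations `2413` and `3142` belong to the unavoidable core of `Av(1423)`. -/
theorem result : p2413 ∈ Core C 4 ∧ p3142 ∈ Core C 4 := ⟨core_2413, core_3142⟩

end Pool.Agent.Results.MP_276eaf_co.TwoSimpleInCore
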